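import Pool.Agent.Q38.LC.Fin

set_option autoImplicit false

namespace Pool.Agent.Results.MP_f0c992_lc.OneDimensionalContinuum

open Pool.Agent.Helper227 (chi jump TLe)

/-- The nonnegative rational number with code `u`. -/
noncomputable def ratVal (u : ℕ) : ℝ := (u.unpair.1 : ℝ) / ((u.unpair.2 : ℝ) + 1)

/-- The space `X` has a `D`-computable presentation: a complete metric compatible with the
topology, a dense sequence `x`, and a `D`-computable function which sends `(i, j, n)` to (the code
of) a rational number within `2 ^ (-n)` of the distance of `x i` and `x j`. -/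
def Presented (D : ℕ → Bool) (X : Type) [t : TopologicalSpace X] : Prop :=
  ∃ m : MetricSpace X, m.toPseudoMetricSpace.toUniformSpace.toTopologicalSpace = t ∧
    @CompleteSpace X m.toPseudoMetricSpace.toUniformSpace ∧
    ∃ x : ℕ → X, DenseRange x ∧
      ∃ f : ℕ → ℕ, TuringReducible (fun n => Part.some (f n)) (chi D) ∧
        ∀ i j n : ℕ,
          |m.dist (x i) (x j) - ratVal (f (Nat.pair i (Nat.pair j n)))| ≤ (1 / 2 : ℝ) ^ n

/-- The covering dimension of `X` is at most `m`: every finite open cover has a finite open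
refinement such that every point is in at most `m + 1` of its members. -/
def CovDimLE (X : Type) [TopologicalSpace X] (m : ℕ) : Prop :=
  ∀ (ι : Type) [Finite ι] (U : ι → Set X), (∀ i, IsOpen (U i)) → (⋃ i, U i) = Set.univ →
    ∃ (κ : Type) (_ : Finite κ) (V : κ → Set X), (∀ k, IsOpen (V k)) ∧ (⋃ k, V k) = Set.univ ∧
      (∀ k, ∃ i, V k ⊆ U i) ∧ ∀ x, Set.ncard {k | x ∈ V k} ≤ m + 1

/-- The empty set, as an oracle. -/
def empty : ℕ → Bool := fun _ => false

/-- The Turing degree of `D` is `low_n`: the `n`-th jump of `D` is Turing equivalent to the `n`-th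
jump of the empty set. -/
def Low (n : ℕ) (D : ℕ → Bool) : Prop :=
  TuringEquivalent (chi (jump^[n] D)) (chi (jump^[n] empty))

/-- There is a compact connected Polish space of dimension one which is presented relative to an
oracle of low₂ (hence low₄) degree, and which is not homeomorphic to any computably presented
Polish space. -/
theorem result : ∃ D : ℕ → Bool, Low 2 D ∧ Low 4 D ∧
    ∃ (P : Type) (_ : TopologicalSpace P), PolishSpace P ∧ CompactSpace P ∧ ConnectedSpace P ∧
      CovDimLE P 1 ∧ ¬ CovDimLE P 0 ∧ smallInductiveDimension P = 1 ∧ Presented D P ∧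
      ∀ (Q : Type) [TopologicalSpace Q], Presented empty Q → IsEmpty (P ≃ₜ Q) := by
  obtain ⟨D, h1, h2⟩ := Pool.Agent.W361.LQ.deg2 Pool.Agent.W952.LP.low Pool.Agent.W952.LP.inv
  have h0 : TLe empty D := Pool.Agent.Q38.LC.zero_le D
  exact ⟨D, ⟨h2, h0.jump.jump⟩, ⟨h2.jump.jump, h0.jump.jump.jump.jump⟩,
    Pool.Agent.Q38.LC.main h1⟩

end Pool.Agent.Results.MP_f0c992_lc.OneDimensionalContinuum
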